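import Mathlib
import Pool.Agent.Y511.LD.Add

/-!
# The trace map in characteristic two

For a finite field `E` with `2 ^ (v + 1)` elements contained in the field `K` (by `i`), and for `s` in
`K`, the map `c ↦ ∑ (c s) ^ (2 ^ j)`, `j ≤ v`.
-/

set_option autoImplicit false

namespace Pool.Agent.W2helper79.L2G

open Polynomial Finset
open Pool.Agent.Y511.LD (LL LL_der LL_natDegree LL_monic LL_zero main_sum)

variable {K : Type*} [Field K] [Algebra (ZMod 2) K]

lemma charP_two (K : Type*) [Field K] [Algebra (ZMod 2) K] : CharP K 2 :=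
  charP_of_injective_algebraMap (algebraMap (ZMod 2) K).injective 2

variable {E : Type*} [Field E] [Fintype E] [DecidableEq E] [Algebra (ZMod 2) E]

/-- the trace map -/
noncomputable def XX (i : E →+* K) (v : ℕ) (s : K) : E →ₗ[ZMod 2] K :=
  AddMonoidHom.toZModLinearMap 2
    { toFun := fun c => ∑ j ∈ range (v + 1), (i c * s) ^ 2 ^ j
      map_zero' := by
        apply Finset.sum_eq_zero
        intro j _
        rw [map_zero, zero_mul, zero_pow (by positivity)]
      map_add' := by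
        intro a b
        have := charP_two K
        rw [← Finset.sum_add_distrib]
        apply Finset.sum_congr rfl
        intro j _
        rw [map_add, add_mul, add_pow_char_pow] }

lemma XX_apply (i : E →+* K) (v : ℕ) (s : K) (c : E) :
    XX i v s c = ∑ j ∈ range (v + 1), (i c * s) ^ 2 ^ j := rfl

lemma XX_sq (i : E →+* K) (v : ℕ) (hE : Fintype.card E = 2 ^ (v + 1)) (s : K) (c : E) :
    XX i v s c ^ 2 = XX i v s c + i c * (s ^ 2 ^ (v + 1) + s) := by
  have := charP_two K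
  have h2 : (2 : K) = 0 := by exact_mod_cast CharP.cast_eq_zero K 2
  rw [XX_apply, sum_pow_char]
  have h1 : ∀ j, ((i c * s) ^ 2 ^ j) ^ 2 = (i c * s) ^ 2 ^ (j + 1) := by
    intro j
    rw [← pow_mul, ← pow_succ]
  simp only [h1]
  have h3 : (i c * s) ^ 2 ^ (v + 1) = i c * s ^ 2 ^ (v + 1) := by
    rw [mul_pow, ← map_pow, ← hE, FiniteField.pow_card]
  have h4 := Finset.sum_range_succ (fun j => (i c * s) ^ 2 ^ j) (v + 1)
  have h5 := Finset.sum_range_succ' (fun j => (i c * s) ^ 2 ^ j) (v + 1)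
  rw [h4, h3, pow_zero, pow_one] at h5
  linear_combination -h5 - i c * s * h2

lemma XX_ne (i : E →+* K) (v : ℕ) (hE : Fintype.card E = 2 ^ (v + 1)) (s : K)
    (hs : s ^ 2 ^ (v + 1) + s ≠ 0) (c : E) (hc : c ≠ 0) : XX i v s c ≠ 0 := by
  intro h
  have h1 := XX_sq i v hE s c
  rw [h, zero_pow (by norm_num), zero_add] at h1
  have h2 : i c ≠ 0 := by
    rw [ne_eq, map_eq_zero]
    exact hc
  exact mul_ne_zero h2 hs h1.symm

lemma XX_inj (i : E →+* K) (v : ℕ) (hE : Fintype.card E = 2 ^ (v + 1)) (s : K)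
    (hs : s ^ 2 ^ (v + 1) + s ≠ 0) : Function.Injective (XX i v s) := by
  rw [← LinearMap.ker_eq_bot, LinearMap.ker_eq_bot']
  intro c h
  by_contra hc
  exact XX_ne i v hE s hs c hc h

/-- the polynomial with the roots `XX c` -/
lemma XX_poly (i : E →+* K) (v : ℕ) (hE : Fintype.card E = 2 ^ (v + 1)) (s : K)
    (hs : s ^ 2 ^ (v + 1) + s ≠ 0) :
    C (s ^ 2 ^ v) * LL (XX i v s) (0 : E →ₗ[ZMod 2] ZMod 2) =
      C ((s ^ 2 ^ (v + 1) + s) ^ 2 ^ v) * X + ∑ j ∈ range (v + 1),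
        C (s ^ 2 ^ j * (s ^ 2 ^ (v + 1) + s) ^ (2 ^ v - 2 ^ j)) * (X ^ 2 ^ (j + 1) + X ^ 2 ^ j) := by
  classical
  set σ := s ^ 2 ^ (v + 1) + s with hσ
  have := charP_two K
  have h2 : (2 : K) = 0 := by exact_mod_cast CharP.cast_eq_zero K 2
  have hfil : univ.filter (fun x : E => (0 : E →ₗ[ZMod 2] ZMod 2) x = 0) = univ := by
    simp
  have hLd : (LL (XX i v s) (0 : E →ₗ[ZMod 2] ZMod 2)).natDegree = 2 ^ (v + 1) := by
    rw [LL_natDegree, hfil, card_univ, hE]
  have hLm := LL_monic (XX i v s) (0 : E →ₗ[ZMod 2] ZMod 2)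
  have hcard : (univ.image (XX i v s)).card = 2 ^ (v + 1) := by
    rw [Finset.card_image_of_injective _ (XX_inj i v hE s hs), card_univ, hE]
  apply Polynomial.eq_of_degree_sub_lt_of_eval_finset_eq (univ.image (XX i v s))
  · rw [hcard]
    -- subtract the leading term from both
    have hL1 : (C (s ^ 2 ^ v) * LL (XX i v s) (0 : E →ₗ[ZMod 2] ZMod 2) -
        C (s ^ 2 ^ v) * X ^ 2 ^ (v + 1)).degree < ((2 ^ (v + 1) : ℕ) : WithBot ℕ) := by
      rw [← mul_sub]
      have h3 : (LL (XX i v s) (0 : E →ₗ[ZMod 2] ZMod 2) - X ^ 2 ^ (v + 1)).degree <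
          ((2 ^ (v + 1) : ℕ) : WithBot ℕ) := by
        have h4 := degree_sub_lt (p := LL (XX i v s) (0 : E →ₗ[ZMod 2] ZMod 2))
          (q := X ^ 2 ^ (v + 1)) (by rw [degree_X_pow, degree_eq_natDegree hLm.ne_zero, hLd])
          hLm.ne_zero (by rw [hLm.leadingCoeff, leadingCoeff_X_pow])
        rw [degree_eq_natDegree hLm.ne_zero, hLd] at h4
        exact h4
      refine lt_of_le_of_lt (degree_mul_le _ _) ?_
      refine lt_of_le_of_lt (add_le_add_left degree_C_le _) ?_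
      rw [zero_add]
      exact h3
    have hR1 : (C (σ ^ 2 ^ v) * X + ∑ j ∈ range (v + 1),
        C (s ^ 2 ^ j * σ ^ (2 ^ v - 2 ^ j)) * (X ^ 2 ^ (j + 1) + X ^ 2 ^ j) -
        C (s ^ 2 ^ v) * X ^ 2 ^ (v + 1)).degree < ((2 ^ (v + 1) : ℕ) : WithBot ℕ) := by
      rw [Finset.sum_range_succ, Nat.sub_self, pow_zero, mul_one]
      have e : C (σ ^ 2 ^ v) * X + (∑ j ∈ range v,
          C (s ^ 2 ^ j * σ ^ (2 ^ v - 2 ^ j)) * (X ^ 2 ^ (j + 1) + X ^ 2 ^ j) +
          C (s ^ 2 ^ v) * (X ^ 2 ^ (v + 1) + X ^ 2 ^ v)) - C (s ^ 2 ^ v) * X ^ 2 ^ (v + 1) =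
          C (σ ^ 2 ^ v) * X + (∑ j ∈ range v,
          C (s ^ 2 ^ j * σ ^ (2 ^ v - 2 ^ j)) * (X ^ 2 ^ (j + 1) + X ^ 2 ^ j)) +
          C (s ^ 2 ^ v) * X ^ 2 ^ v := by ring
      rw [e]
      have hlt : ∀ m : ℕ, m < 2 ^ (v + 1) → ∀ r : K,
          (C r * X ^ m).degree < ((2 ^ (v + 1) : ℕ) : WithBot ℕ) := by
        intro m hm r
        exact lt_of_le_of_lt (degree_C_mul_X_pow_le _ _) (by exact_mod_cast hm)
      refine lt_of_le_of_lt (degree_add_le _ _) (max_lt ?_ ?_)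
      · refine lt_of_le_of_lt (degree_add_le _ _) (max_lt ?_ ?_)
        · have := hlt 1 (Nat.one_lt_two_pow (by omega)) (σ ^ 2 ^ v)
          rwa [pow_one] at this
        · apply lt_of_le_of_lt (degree_sum_le _ _)
          rw [Finset.sup_lt_iff (by exact_mod_cast WithBot.bot_lt_coe _)]
          intro j hj
          have hj2 := Finset.mem_range.1 hj
          rw [mul_add]
          refine lt_of_le_of_lt (degree_add_le _ _) (max_lt ?_ ?_)
          · exact hlt _ (Nat.pow_lt_pow_right (by norm_num) (by omega)) _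
          · exact hlt _ (Nat.pow_lt_pow_right (by norm_num) (by omega)) _
      · exact hlt _ (Nat.pow_lt_pow_right (by norm_num) (by omega)) _
    have h5 := lt_of_le_of_lt (degree_sub_le _ _) (max_lt hL1 hR1)
    rwa [sub_sub_sub_cancel_right] at h5
  · intro z hz
    obtain ⟨c, -, rfl⟩ := Finset.mem_image.1 hz
    rw [eval_mul, LL_zero _ _ c (by simp), mul_zero, eval_add, eval_mul, eval_C, eval_X,
      eval_finsetSum]
    symm
    have h6 : ∀ j ∈ range (v + 1), eval (XX i v s c)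
        (C (s ^ 2 ^ j * σ ^ (2 ^ v - 2 ^ j)) * (X ^ 2 ^ (j + 1) + X ^ 2 ^ j)) =
        σ ^ 2 ^ v * (i c * s) ^ 2 ^ j := by
      intro j hj
      have hj2 := Finset.mem_range.1 hj
      rw [eval_mul, eval_C, eval_add, eval_pow, eval_pow, eval_X]
      have h7 : XX i v s c ^ 2 ^ (j + 1) + XX i v s c ^ 2 ^ j = (i c * σ) ^ 2 ^ j := by
        rw [pow_succ' 2 j, pow_mul, ← add_pow_char_pow, XX_sq i v hE s c]
        congr 1
        linear_combination XX i v s c * h2
      rw [h7]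
      have h8 : σ ^ 2 ^ v = σ ^ (2 ^ v - 2 ^ j) * σ ^ 2 ^ j := by
        rw [← pow_add, Nat.sub_add_cancel (Nat.pow_le_pow_right (by norm_num) (by omega))]
      rw [h8, mul_pow, mul_pow]
      ring
    rw [Finset.sum_congr rfl h6, ← Finset.mul_sum, ← XX_apply]
    linear_combination σ ^ 2 ^ v * XX i v s c * h2

/-- the product of the nonzero values -/
lemma XX_prod (i : E →+* K) (v : ℕ) (hE : Fintype.card E = 2 ^ (v + 1)) (s : K) (hs0 : s ≠ 0)
    (hs : s ^ 2 ^ (v + 1) + s ≠ 0) :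
    ∏ c ∈ univ.erase (0 : E), XX i v s c = (s ^ 2 ^ (v + 1) + s) ^ (2 ^ v - 1) * s ^ 2 ^ v := by
  classical
  have := charP_two K
  have h2 : (2 : K) = 0 := by exact_mod_cast CharP.cast_eq_zero K 2
  have hfil : univ.filter (fun x : E => (0 : E →ₗ[ZMod 2] ZMod 2) x = 0) = univ := by
    simp
  have h1 := congrArg (fun P => (derivative P).eval 0) (XX_poly i v hE s hs)
  set σ := s ^ 2 ^ (v + 1) + s with hσ
  simp only [derivative_C_mul, eval_mul, eval_C, derivative_add, derivative_X, eval_add, eval_one,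
    derivative_sum, eval_finsetSum] at h1
  rw [LL_der (XX i v s) (XX_inj i v hE s hs), hfil, Finset.sum_range_succ'] at h1
  have h3 : ∀ j ∈ range v, s ^ 2 ^ (j + 1) * σ ^ (2 ^ v - 2 ^ (j + 1)) *
      (eval 0 (derivative (X ^ 2 ^ (j + 1 + 1) : K[X])) +
        eval 0 (derivative (X ^ 2 ^ (j + 1) : K[X]))) = 0 := by
    intro j _
    have h4 : ∀ m : ℕ, derivative (X ^ 2 ^ (m + 1) : K[X]) = 0 := by
      intro m
      rw [derivative_X_pow, Nat.cast_pow, pow_succ]
      have h5 : ((2 : ℕ) : K) = 0 := by exact_mod_cast h2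
      rw [h5, mul_zero, C_0, zero_mul]
    rw [h4, h4]
    simp
  rw [Finset.sum_eq_zero h3, zero_add, pow_zero, pow_one] at h1
  have h6 : eval 0 (derivative (X ^ 2 ^ (0 + 1) : K[X])) + eval 0 (derivative (X ^ 1 : K[X])) =
      1 := by
    simp
  rw [h6] at h1
  have h7 : ∏ h ∈ univ.erase (0 : E), (0 - XX i v s h) = ∏ c ∈ univ.erase (0 : E), XX i v s c := by
    apply Finset.prod_congr rfl
    intro c _
    linear_combination -XX i v s c * h2
  rw [h7] at h1
  have h8 : σ ^ 2 ^ v = σ ^ (2 ^ v - 1) * σ := by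
    rw [← pow_succ, Nat.sub_add_cancel Nat.one_le_two_pow]
  have h9 : s ^ 2 ^ (v + 1) = s ^ 2 ^ v * s ^ 2 ^ v := by
    rw [← pow_add]
    congr 1
    ring
  apply mul_left_cancel₀ (pow_ne_zero (2 ^ v) hs0)
  rw [h1, h8]
  have h10 : σ + s = s ^ 2 ^ v * s ^ 2 ^ v := by
    rw [hσ, h9]
    linear_combination s * h2
  linear_combination σ ^ (2 ^ v - 1) * h10

end Pool.Agent.W2helper79.L2G
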