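import Mathlib
import Pool.Agent.W2helper79.L2G.Trace

/-!
# The partial fraction identity in characteristic two
-/

set_option autoImplicit false

namespace Pool.Agent.W2helper79.L2G

open Polynomial Finset
open Pool.Agent.Y511.LD (LL LL_der LL_natDegree LL_monic LL_zero main_sum)

variable {K : Type*} [Field K] [Algebra (ZMod 2) K]
variable {E : Type*} [Field E] [Fintype E] [DecidableEq E] [Algebra (ZMod 2) E]

/-- `c P + Q ∑ c ^ (2 ^ (j + 1)) A ^ (2 ^ (j + 1) - 2) B ^ (2 ^ v - 2 ^ (j + 1))` over any ring -/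
def FF {R : Type*} [CommRing R] (v : ℕ) (P Q A B c : R) : R :=
  c * P + Q * ∑ j ∈ range v, c ^ 2 ^ (j + 1) * A ^ (2 ^ (j + 1) - 2) * B ^ (2 ^ v - 2 ^ (j + 1))

lemma FF_map {R S : Type*} [CommRing R] [CommRing S] (g : R →+* S) (v : ℕ) (P Q A B c : R) :
    g (FF v P Q A B c) = FF v (g P) (g Q) (g A) (g B) (g c) := by
  simp only [FF, map_add, map_mul, map_sum, map_pow]

lemma FF_eq (i : E →+* K) (v : ℕ) (P Q A B : K) (hA : A ≠ 0) (hB : B ≠ 0)
    (h : A * P + Q * B ^ (2 ^ v - 1) = 1) (c : E) :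
    A ^ 2 * FF v P Q A B (i c) = A * i c + Q * B ^ 2 ^ v * XX i v (A / B) c := by
  have h2 : (2 : K) = 0 := by
    have := charP_two K
    exact_mod_cast CharP.cast_eq_zero K 2
  rw [FF, XX_apply, Finset.sum_range_succ', pow_zero, pow_one]
  have h1 : ∀ j ∈ range v, A ^ 2 * (i c ^ 2 ^ (j + 1) * A ^ (2 ^ (j + 1) - 2) *
      B ^ (2 ^ v - 2 ^ (j + 1))) = B ^ 2 ^ v * (i c * (A / B)) ^ 2 ^ (j + 1) := by
    intro j hj
    have hj2 := Finset.mem_range.1 hj
    have e1 : 2 ^ (j + 1) = (2 ^ (j + 1) - 2) + 2 :=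
      (Nat.sub_add_cancel (by
        calc 2 = 2 ^ 1 := by norm_num
          _ ≤ 2 ^ (j + 1) := Nat.pow_le_pow_right (by norm_num) (by omega))).symm
    have e2 : 2 ^ v = (2 ^ v - 2 ^ (j + 1)) + 2 ^ (j + 1) :=
      (Nat.sub_add_cancel (Nat.pow_le_pow_right (by norm_num) (by omega))).symm
    have f1 : A ^ 2 ^ (j + 1) = A ^ (2 ^ (j + 1) - 2) * A ^ 2 := by
      rw [← pow_add, ← e1]
    have f2 : B ^ 2 ^ v = B ^ (2 ^ v - 2 ^ (j + 1)) * B ^ 2 ^ (j + 1) := by
      rw [← pow_add, ← e2]
    rw [f2, mul_pow, div_pow, f1]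
    have hB2 : B ^ 2 ^ (j + 1) ≠ 0 := pow_ne_zero _ hB
    field_simp
  rw [mul_add, mul_left_comm (A ^ 2) Q, Finset.mul_sum, Finset.sum_congr rfl h1, ← Finset.mul_sum]
  have f3 : B ^ 2 ^ v = B ^ (2 ^ v - 1) * B := by
    rw [← pow_succ, Nat.sub_add_cancel Nat.one_le_two_pow]
  have f4 : B ^ 2 ^ v * (i c * (A / B)) = B ^ (2 ^ v - 1) * (i c * A) := by
    rw [f3]
    field_simp
  linear_combination (A * i c) * h - Q * f4 - Q * B ^ (2 ^ v - 1) * (i c * A) * h2

/-- the main identity -/
theorem core (i : E →+* K) (v : ℕ) (hv : 1 ≤ v) (hE : Fintype.card E = 2 ^ (v + 1))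
    (P Q A B : K) (hA : A ≠ 0) (hB : B ≠ 0)
    (h : A * P + Q * B ^ (2 ^ v - 1) = 1) (hs : (A / B) ^ 2 ^ (v + 1) + A / B ≠ 0)
    (hF : ∀ c : E, c ≠ 0 → FF v P Q A B (i c) ≠ 0) (f : E →ₗ[ZMod 2] ZMod 2) (hf : f ≠ 0) :
    (univ.filter (fun c : E => f c = 1)).card = 2 ^ v ∧
    (∑ c ∈ univ.filter (fun c : E => f c = 1), i c * (FF v P Q A B (i c))⁻¹) *
      ∏ c ∈ univ.filter (fun c : E => f c = 1), FF v P Q A B (i c) = Q := by
  classical
  have hchar := charP_two K
  have h2 : (2 : K) = 0 := by exact_mod_cast CharP.cast_eq_zero K 2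
  have hcase : ∀ x : ZMod 2, x = 0 ∨ x = 1 := by decide
  obtain ⟨e, he⟩ : ∃ e, f e = 1 := by
    by_contra hcon
    push Not at hcon
    apply hf
    ext x
    rcases hcase (f x) with h1 | h1
    · rw [h1]
      rfl
    · exact absurd h1 (hcon x)
  have hne0 : ∀ c : E, f c = 1 → c ≠ 0 := by
    rintro c hc rfl
    rw [map_zero] at hc
    exact zero_ne_one hc
  -- the two fibres have the same number of elements
  have hcardeq : (univ.filter (fun c : E => f c = 0)).card =
      (univ.filter (fun c : E => f c = 1)).card := by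
    apply Finset.card_bij' (fun c _ => c + e) (fun c _ => c - e)
    · intro c hc
      simp only [mem_filter, mem_univ, true_and] at hc ⊢
      rw [map_add, hc, he, zero_add]
    · intro c hc
      simp only [mem_filter, mem_univ, true_and] at hc ⊢
      rw [map_sub, hc, he, sub_self]
    · intro c _
      ring
    · intro c _
      ring
  have hdisj : Disjoint (univ.filter (fun c : E => f c = 0)) (univ.filter (fun c : E => f c = 1)) := by
    rw [Finset.disjoint_left]
    intro x hx hy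
    simp only [mem_filter, mem_univ, true_and] at hx hy
    rw [hx] at hy
    exact zero_ne_one hy
  have hun : (univ.filter (fun c : E => f c = 0)) ∪ (univ.filter (fun c : E => f c = 1)) = univ := by
    ext x
    simp only [mem_union, mem_filter, mem_univ, true_and, iff_true]
    exact hcase (f x)
  have hcard : (univ.filter (fun c : E => f c = 1)).card = 2 ^ v := by
    have h3 := Finset.card_union_of_disjoint hdisj
    rw [hun, card_univ, hE, hcardeq, pow_succ] at h3
    omega
  refine ⟨hcard, ?_⟩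
  set s := A / B with hsdef
  set σ := s ^ 2 ^ (v + 1) + s with hσ
  have hs0 : s ≠ 0 := div_ne_zero hA hB
  set κ := Q * B ^ 2 ^ v with hκ
  set τ := 1 + σ * κ / A with hτ
  have hX0 : ∀ c : E, c ≠ 0 → XX i v s c ≠ 0 := XX_ne i v hE s hs
  -- `σ A F = X (X + τ)`
  have hFX : ∀ c : E, σ * A * FF v P Q A B (i c) = XX i v s c * (XX i v s c + τ) := by
    intro c
    apply mul_left_cancel₀ hA
    have h3 := FF_eq i v P Q A B hA hB h c
    have h4 := XX_sq i v hE s c
    have h5 : A * τ = A + σ * κ := by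
      rw [hτ]
      field_simp
    rw [← hsdef, ← hκ] at h3
    rw [← hσ] at h4
    linear_combination σ * h3 - A * h4 - XX i v s c * h5 - A * XX i v s c * h2
  have hσA : σ * A ≠ 0 := mul_ne_zero hs hA
  have hXτ : ∀ c : E, c ≠ 0 → XX i v s c + τ ≠ 0 := by
    intro c hc h3
    have h4 := hFX c
    rw [h3, mul_zero] at h4
    exact mul_ne_zero hσA (hF c hc) h4
  have hAτ : A * τ = A + σ * κ := by
    rw [hτ]
    field_simp
  have hterm : ∀ c : E, c ≠ 0 → i c * (FF v P Q A B (i c))⁻¹ =
      A + σ * κ * (XX i v s c + τ)⁻¹ := by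
    intro c hc
    have g1 := hF c hc
    have g2 := hXτ c hc
    have g3 : i c * (XX i v s c + τ) = (A * (XX i v s c + τ) + σ * κ) * FF v P Q A B (i c) := by
      apply mul_left_cancel₀ hσA
      have h4 := XX_sq i v hE s c
      rw [← hσ] at h4
      have h5 := hFX c
      linear_combination -A * (XX i v s c + τ) * h4 -
        (A * (XX i v s c + τ) + σ * κ) * h5 - XX i v s c * (XX i v s c + τ) * hAτ -
        (A * XX i v s c * (XX i v s c + τ) + XX i v s c * (XX i v s c + τ) * σ * κ) * h2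
    field_simp
    linear_combination g3
  have hsum1 : ∑ c ∈ univ.filter (fun c : E => f c = 1), i c * (FF v P Q A B (i c))⁻¹ =
      σ * κ * ∑ c ∈ univ.filter (fun c : E => f c = 1), (XX i v s c + τ)⁻¹ := by
    have h3 : ∀ c ∈ univ.filter (fun c : E => f c = 1), i c * (FF v P Q A B (i c))⁻¹ =
        A + σ * κ * (XX i v s c + τ)⁻¹ := by
      intro c hc
      exact hterm c (hne0 c (by simpa using hc))
    rw [Finset.sum_congr rfl h3, Finset.sum_add_distrib, ← Finset.mul_sum, Finset.sum_const, hcard,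
      nsmul_eq_mul]
    obtain ⟨w, rfl⟩ : ∃ w, v = w + 1 := ⟨v - 1, by omega⟩
    have h4 : ((2 ^ (w + 1) : ℕ) : K) = 0 := by
      rw [Nat.cast_pow, pow_succ]
      have h5 : ((2 : ℕ) : K) = 0 := by exact_mod_cast h2
      rw [h5, mul_zero]
    rw [h4, zero_mul, zero_add]
  have hms := main_sum (XX i v s) (XX_inj i v hE s hs) f e he τ (by
    intro c hc
    have h3 : c ≠ 0 := by
      rintro rfl
      exact hc (map_zero f)
    have h4 := hXτ c h3
    intro h5
    apply h4
    linear_combination h5 + XX i v s c * h2)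
  have hms1 : ∑ x : E, algebraMap (ZMod 2) K (f x) * (τ - XX i v s x)⁻¹ =
      ∑ c ∈ univ.filter (fun c : E => f c = 1), (XX i v s c + τ)⁻¹ := by
    rw [Finset.sum_filter]
    apply Finset.sum_congr rfl
    intro c _
    rcases hcase (f c) with h3 | h3
    · rw [h3, map_zero, zero_mul, if_neg zero_ne_one]
    · rw [h3, map_one, one_mul, if_pos rfl]
      congr 1
      linear_combination -XX i v s c * h2
  have hms2 : ∏ x ∈ univ.filter (fun x : E => f x ≠ 0), (τ - XX i v s x) =
      ∏ c ∈ univ.filter (fun c : E => f c = 1), (XX i v s c + τ) := by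
    apply Finset.prod_congr
    · ext x
      simp only [mem_filter, mem_univ, true_and]
      rcases hcase (f x) with h3 | h3
      · simp [h3]
      · simp [h3]
    · intro c _
      linear_combination -XX i v s c * h2
  have hms3 : ∏ x ∈ (univ.filter (fun x : E => f x = 0)).erase 0, (0 - XX i v s x) =
      ∏ x ∈ (univ.filter (fun x : E => f x = 0)).erase 0, XX i v s x := by
    apply Finset.prod_congr rfl
    intro c _
    linear_combination -XX i v s c * h2
  rw [hms1, hms2, hms3, Nat.sub_self, pow_zero, mul_one] at hms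
  have hsplit : ∏ c ∈ univ.erase (0 : E), XX i v s c =
      (∏ x ∈ (univ.filter (fun x : E => f x = 0)).erase 0, XX i v s x) *
      ∏ c ∈ univ.filter (fun c : E => f c = 1), XX i v s c := by
    rw [← Finset.prod_union]
    · apply Finset.prod_congr _ fun _ _ => rfl
      ext x
      simp only [mem_erase, mem_univ, and_true, mem_union, mem_filter, true_and]
      constructor
      · intro hx
        rcases hcase (f x) with h3 | h3
        · exact Or.inl ⟨hx, h3⟩
        · exact Or.inr h3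
      · rintro (h3 | h3)
        · exact h3.1
        · exact hne0 x h3
    · rw [Finset.disjoint_left]
      intro x hx hy
      simp only [mem_filter, mem_erase, mem_univ, true_and] at hx hy
      rw [hx.2] at hy
      exact zero_ne_one hy
  have hprod : (σ * A) ^ 2 ^ v * ∏ c ∈ univ.filter (fun c : E => f c = 1), FF v P Q A B (i c) =
      (∏ c ∈ univ.filter (fun c : E => f c = 1), XX i v s c) *
      ∏ c ∈ univ.filter (fun c : E => f c = 1), (XX i v s c + τ) := by
    rw [← Finset.prod_mul_distrib, ← hcard, ← Finset.prod_const, ← Finset.prod_mul_distrib]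
    apply Finset.prod_congr rfl
    intro c _
    exact hFX c
  apply mul_left_cancel₀ (pow_ne_zero (2 ^ v) hσA)
  have hXp := XX_prod i v hE s hs0 hs
  rw [← hσ, hsplit] at hXp
  rw [hsum1]
  set t1 := ∑ c ∈ univ.filter (fun c : E => f c = 1), (XX i v s c + τ)⁻¹ with ht1
  set r1 := ∏ c ∈ univ.filter (fun c : E => f c = 1), (XX i v s c + τ) with hr1
  set rX := ∏ c ∈ univ.filter (fun c : E => f c = 1), XX i v s c with hrX
  set rk := ∏ x ∈ (univ.filter (fun x : E => f x = 0)).erase 0, XX i v s x with hrk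
  have hκs : κ * s ^ 2 ^ v = Q * A ^ 2 ^ v := by
    rw [hκ, hsdef, div_pow]
    have hB2 : B ^ 2 ^ v ≠ 0 := pow_ne_zero _ hB
    field_simp
  have hσp : σ ^ 2 ^ v = σ ^ (2 ^ v - 1) * σ := by
    rw [← pow_succ, Nat.sub_add_cancel Nat.one_le_two_pow]
  calc (σ * A) ^ 2 ^ v * (σ * κ * t1 *
        ∏ c ∈ univ.filter (fun c : E => f c = 1), FF v P Q A B (i c))
      = σ * κ * t1 * ((σ * A) ^ 2 ^ v *
        ∏ c ∈ univ.filter (fun c : E => f c = 1), FF v P Q A B (i c)) := by ring
    _ = σ * κ * rX * (t1 * r1) := by rw [hprod]; ring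
    _ = -(σ * κ * (rk * rX)) := by rw [hms]; ring
    _ = -(σ * κ * (σ ^ (2 ^ v - 1) * s ^ 2 ^ v)) := by rw [hXp]
    _ = -((κ * s ^ 2 ^ v) * (σ ^ (2 ^ v - 1) * σ)) := by ring
    _ = -((Q * A ^ 2 ^ v) * σ ^ 2 ^ v) := by rw [hκs, ← hσp]
    _ = (σ * A) ^ 2 ^ v * Q := by
      rw [mul_pow]
      linear_combination -(Q * A ^ 2 ^ v * σ ^ 2 ^ v) * h2

end Pool.Agent.W2helper79.L2G
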