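import Mathlib
import Pool.Agent.W2helper79.L2G.Core
import Pool.Agent.W2helper79.L2.Basis

/-!
# The space of logarithmic forms in characteristic two
-/

set_option autoImplicit false

namespace Pool.Agent.W2helper79.L2G

open Polynomial Finset
open Pool.Agent.W515.LD (dX dlog D_poly dX_ne_zero dlog_mul dlog_one dlog_prod)
open Pool.Agent.W2helper79.L2 (LG two_poly)

variable {k : Type*} [Field k] [Algebra (ZMod 2) k]
variable {E : Type*} [Field E] [Fintype E] [DecidableEq E] [Algebra (ZMod 2) E]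

/-- the polynomial `F_c` -/
noncomputable def Fc (i : E →+* k) (v : ℕ) (P Q A B : k[X]) (c : E) : k[X] :=
  FF v P Q A B (C (i c))

/-- the linear family of forms -/
noncomputable def form (i : E →+* k) (v : ℕ) (P Q A B : k[X]) :
    (E →ₗ[ZMod 2] ZMod 2) →ₗ[ZMod 2] Ω[RatFunc k⁄k] where
  toFun h := ∑ c : E, h c • LG (Fc i v P Q A B c)
  map_add' h h' := by
    rw [← Finset.sum_add_distrib]
    apply Finset.sum_congr rfl
    intro c _
    rw [LinearMap.add_apply, add_smul]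
  map_smul' a h := by
    rw [Finset.smul_sum]
    apply Finset.sum_congr rfl
    intro c _
    rw [LinearMap.smul_apply, smul_eq_mul, mul_smul, RingHom.id_apply]

omit [DecidableEq E] in
lemma form_apply (i : E →+* k) (v : ℕ) (P Q A B : k[X]) (h : E →ₗ[ZMod 2] ZMod 2) :
    form i v P Q A B h = ∑ c : E, h c • LG (Fc i v P Q A B c) := rfl

lemma form_filter (i : E →+* k) (v : ℕ) (P Q A B : k[X]) (h : E →ₗ[ZMod 2] ZMod 2) :
    form i v P Q A B h = ∑ c ∈ univ.filter (fun c : E => h c = 1), LG (Fc i v P Q A B c) := by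
  have hcase : ∀ x : ZMod 2, x = 0 ∨ x = 1 := by decide
  rw [form_apply, Finset.sum_filter]
  apply Finset.sum_congr rfl
  intro c _
  rcases hcase (h c) with h3 | h3
  · rw [h3, zero_smul, if_neg zero_ne_one]
  · rw [h3, one_smul, if_pos rfl]

omit [Fintype E] [DecidableEq E] [Algebra (ZMod 2) E] in
lemma der_Fc (i : E →+* k) (v : ℕ) (P Q A B : k[X]) (hPQ : derivative (P * Q) = 1) (c : E) :
    Q * derivative (Fc i v P Q A B c) = C (i c) + derivative Q * Fc i v P Q A B c := by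
  have h2 := two_poly k
  have hY : derivative (∑ j ∈ range v, (C (i c) : k[X]) ^ 2 ^ (j + 1) * A ^ (2 ^ (j + 1) - 2) *
      B ^ (2 ^ v - 2 ^ (j + 1))) = 0 := by
    rw [derivative_sum]
    apply Finset.sum_eq_zero
    intro j hj
    have hj2 := Finset.mem_range.1 hj
    have e1 : 2 ^ (j + 1) = 2 ^ j * 2 := pow_succ 2 j
    have e2 : 2 ^ (j + 1) - 2 = (2 ^ j - 1) * 2 := by
      rw [Nat.sub_mul, one_mul, e1]
    have e3 : 2 ^ v - 2 ^ (j + 1) = (2 ^ (v - 1) - 2 ^ j) * 2 := by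
      rw [Nat.sub_mul, ← pow_succ, ← pow_succ]
      congr 2
      omega
    rw [e2, e3, e1, pow_mul, pow_mul, pow_mul, ← mul_pow, ← mul_pow, derivative_pow]
    have h3 : (C ((2 : ℕ) : k) : k[X]) = 0 := by
      rw [map_natCast]
      exact_mod_cast h2
    rw [h3, zero_mul, zero_mul]
  rw [derivative_mul] at hPQ
  rw [Fc, FF, derivative_add, derivative_mul, derivative_C, zero_mul, zero_add, derivative_mul, hY,
    mul_zero, add_zero]
  linear_combination C (i c) * hPQ - C (i c) * P * derivative Q * h2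

lemma sigma_ne (v : ℕ) (A B : k[X]) (hB : B ≠ 0) (hab : B.natDegree < A.natDegree) :
    (algebraMap k[X] (RatFunc k) A / algebraMap k[X] (RatFunc k) B) ^ 2 ^ (v + 1) +
      algebraMap k[X] (RatFunc k) A / algebraMap k[X] (RatFunc k) B ≠ 0 := by
  set φ := algebraMap k[X] (RatFunc k) with hφ
  have hφ0 : ∀ Q : k[X], Q ≠ 0 → φ Q ≠ 0 := by
    intro Q hQ
    rw [hφ, ne_eq, FaithfulSMul.algebraMap_eq_zero_iff]
    exact hQ
  have hA : A ≠ 0 := by
    rintro rfl
    rw [natDegree_zero] at hab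
    omega
  obtain ⟨w, hw⟩ : ∃ w, 2 ^ (v + 1) = w + 2 := ⟨2 ^ (v + 1) - 2, by
    have : 2 ^ 1 ≤ 2 ^ (v + 1) := Nat.pow_le_pow_right (by norm_num) (by omega)
    omega⟩
  intro h
  have hB0 := hφ0 _ hB
  rw [hw] at h
  have h1 : φ (A ^ (w + 2) + A * B ^ (w + 1)) = 0 := by
    have h2 : φ (A ^ (w + 2) + A * B ^ (w + 1)) =
        φ B ^ (w + 2) * ((φ A / φ B) ^ (w + 2) + φ A / φ B) := by
      rw [map_add, map_mul, map_pow, map_pow, div_pow]
      field_simp
      ring
    rw [h2, h, mul_zero]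
  have h3 : A ^ (w + 2) + A * B ^ (w + 1) = 0 := by
    by_contra h4
    exact hφ0 _ h4 h1
  have h4 : A ^ (w + 2) = -(A * B ^ (w + 1)) := eq_neg_of_add_eq_zero_left h3
  have h5 := congrArg natDegree h4
  rw [natDegree_neg, natDegree_pow, natDegree_mul hA (pow_ne_zero _ hB), natDegree_pow] at h5
  have h6 : (w + 1) * B.natDegree < (w + 1) * A.natDegree :=
    Nat.mul_lt_mul_of_pos_left hab (by omega)
  have h7 : (w + 2) * A.natDegree = (w + 1) * A.natDegree + A.natDegree := by ring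
  omega

lemma natDegree_Fc (i : E →+* k) (v : ℕ) (hv : 1 ≤ v) (P Q A B : k[X]) (hQ : Q ≠ 0) (hB : B ≠ 0)
    (hab : B.natDegree < A.natDegree)
    (hP : P.natDegree < Q.natDegree + (2 ^ v - 2) * A.natDegree) (c : E) (hc : c ≠ 0) :
    (Fc i v P Q A B c).natDegree = Q.natDegree + (2 ^ v - 2) * A.natDegree := by
  have hA : A ≠ 0 := by
    rintro rfl
    rw [natDegree_zero] at hab
    omega
  have hc0 : i c ≠ 0 := by
    rw [ne_eq, map_eq_zero]
    exact hc
  have hCc : (C (i c) : k[X]) ≠ 0 := C_ne_zero.2 hc0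
  obtain ⟨w, rfl⟩ : ∃ w, v = w + 1 := ⟨v - 1, by omega⟩
  -- the top summand
  have htop : ((C (i c) : k[X]) ^ 2 ^ (w + 1) * A ^ (2 ^ (w + 1) - 2) *
      B ^ (2 ^ (w + 1) - 2 ^ (w + 1))).degree =
      (((2 ^ (w + 1) - 2) * A.natDegree : ℕ) : WithBot ℕ) := by
    rw [Nat.sub_self, pow_zero, mul_one, ← C_pow, degree_C_mul (pow_ne_zero _ hc0), degree_pow,
      degree_eq_natDegree hA]
    rw [nsmul_eq_mul]
    push_cast
    rfl
  have hrest : (∑ j ∈ range w, (C (i c) : k[X]) ^ 2 ^ (j + 1) * A ^ (2 ^ (j + 1) - 2) *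
      B ^ (2 ^ (w + 1) - 2 ^ (j + 1))).degree <
      (((2 ^ (w + 1) - 2) * A.natDegree : ℕ) : WithBot ℕ) := by
    apply lt_of_le_of_lt (degree_sum_le _ _)
    rw [Finset.sup_lt_iff (by exact WithBot.bot_lt_coe _)]
    intro j hj
    have hj2 := Finset.mem_range.1 hj
    have h1 : ((C (i c) : k[X]) ^ 2 ^ (j + 1) * A ^ (2 ^ (j + 1) - 2) *
      B ^ (2 ^ (w + 1) - 2 ^ (j + 1))).natDegree ≤
      (2 ^ (j + 1) - 2) * A.natDegree + (2 ^ (w + 1) - 2 ^ (j + 1)) * B.natDegree := by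
      rw [← C_pow, mul_assoc]
      apply (natDegree_C_mul_le _ _).trans
      apply natDegree_mul_le.trans
      rw [natDegree_pow, natDegree_pow]
    have h2 : 2 ^ (j + 1) < 2 ^ (w + 1) := Nat.pow_lt_pow_right (by norm_num) (by omega)
    have h3 : 2 ≤ 2 ^ (j + 1) := by
      calc 2 = 2 ^ 1 := by norm_num
        _ ≤ 2 ^ (j + 1) := Nat.pow_le_pow_right (by norm_num) (by omega)
    have h4 : (2 ^ (j + 1) - 2) * A.natDegree + (2 ^ (w + 1) - 2 ^ (j + 1)) * B.natDegree <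
        (2 ^ (w + 1) - 2) * A.natDegree := by
      have h5 : (2 ^ (w + 1) - 2) = (2 ^ (j + 1) - 2) + (2 ^ (w + 1) - 2 ^ (j + 1)) := by omega
      rw [h5, add_mul]
      have h6 : (2 ^ (w + 1) - 2 ^ (j + 1)) * B.natDegree <
          (2 ^ (w + 1) - 2 ^ (j + 1)) * A.natDegree :=
        Nat.mul_lt_mul_of_pos_left hab (by omega)
      omega
    exact lt_of_le_of_lt degree_le_natDegree (by exact_mod_cast lt_of_le_of_lt h1 h4)
  have hY : (∑ j ∈ range (w + 1), (C (i c) : k[X]) ^ 2 ^ (j + 1) * A ^ (2 ^ (j + 1) - 2) *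
      B ^ (2 ^ (w + 1) - 2 ^ (j + 1))).degree =
      (((2 ^ (w + 1) - 2) * A.natDegree : ℕ) : WithBot ℕ) := by
    rw [Finset.sum_range_succ, degree_add_eq_right_of_degree_lt, htop]
    rw [htop]
    exact hrest
  set Y := ∑ j ∈ range (w + 1), (C (i c) : k[X]) ^ 2 ^ (j + 1) * A ^ (2 ^ (j + 1) - 2) *
      B ^ (2 ^ (w + 1) - 2 ^ (j + 1)) with hYdef
  have hY0 : Y ≠ 0 := by
    rintro h
    rw [h, degree_zero] at hY
    exact absurd hY.symm (WithBot.coe_ne_bot)
  have hYn : Y.natDegree = (2 ^ (w + 1) - 2) * A.natDegree := natDegree_eq_of_degree_eq_some hY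
  have hQY : (Q * Y).natDegree = Q.natDegree + (2 ^ (w + 1) - 2) * A.natDegree := by
    rw [natDegree_mul hQ hY0, hYn]
  have hF : Fc i (w + 1) P Q A B c = C (i c) * P + Q * Y := rfl
  rw [hF, natDegree_add_eq_right_of_natDegree_lt, hQY]
  rw [hQY]
  exact lt_of_le_of_lt (natDegree_C_mul_le _ _) hP

theorem form_eq (i : E →+* k) (v : ℕ) (hv : 1 ≤ v) (hE : Fintype.card E = 2 ^ (v + 1))
    (P Q A B : k[X]) (hPQ : derivative (P * Q) = 1) (hAB : A * P + Q * B ^ (2 ^ v - 1) = 1)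
    (hB : B ≠ 0) (hab : B.natDegree < A.natDegree)
    (hP : P.natDegree < Q.natDegree + (2 ^ v - 2) * A.natDegree)
    (h : E →ₗ[ZMod 2] ZMod 2) (hh : h ≠ 0) :
    ∃ R : k[X], R ≠ 0 ∧ R.natDegree = 2 ^ v * (Q.natDegree + (2 ^ v - 2) * A.natDegree) ∧
      form i v P Q A B h = (algebraMap k[X] (RatFunc k) R)⁻¹ • dX k ∧
      form i v P Q A B h = dlog (algebraMap k[X] (RatFunc k) R) := by
  have h2 := two_poly k
  set φ := algebraMap k[X] (RatFunc k) with hφ
  have hφ0 : ∀ Q : k[X], Q ≠ 0 → φ Q ≠ 0 := by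
    intro Q hQ
    rw [hφ, ne_eq, FaithfulSMul.algebraMap_eq_zero_iff]
    exact hQ
  have hA : A ≠ 0 := by
    rintro rfl
    rw [natDegree_zero] at hab
    omega
  have hQ : Q ≠ 0 := by
    rintro rfl
    rw [mul_zero, derivative_zero] at hPQ
    exact zero_ne_one hPQ
  have hdeg := natDegree_Fc i v hv P Q A B hQ hB hab hP
  have hF0 : ∀ c : E, c ≠ 0 → Fc i v P Q A B c ≠ 0 := by
    intro c hc h0
    have h1 := hdeg c hc
    rw [h0, natDegree_zero] at h1
    omega
  set j : E →+* RatFunc k := (φ.comp C).comp i with hj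
  have hFφ : ∀ c : E, φ (Fc i v P Q A B c) = FF v (φ P) (φ Q) (φ A) (φ B) (j c) := by
    intro c
    rw [Fc, FF_map]
    rfl
  obtain ⟨hcard, hcore⟩ := core j v hv hE (φ P) (φ Q) (φ A) (φ B) (hφ0 _ hA) (hφ0 _ hB)
    (by rw [← map_mul, ← map_pow, ← map_mul, ← map_add, hAB, map_one])
    (sigma_ne v A B hB hab)
    (by
      intro c hc
      rw [← hFφ]
      exact hφ0 _ (hF0 c hc)) h hh
  have hne0 : ∀ c ∈ univ.filter (fun c : E => h c = 1), c ≠ 0 := by
    rintro c hc rfl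
    rw [mem_filter, map_zero] at hc
    exact zero_ne_one hc.2
  set R := ∏ c ∈ univ.filter (fun c : E => h c = 1), Fc i v P Q A B c with hR
  have hR0 : R ≠ 0 := Finset.prod_ne_zero_iff.2 fun c hc => hF0 c (hne0 c hc)
  have hlog : form i v P Q A B h = dlog (φ R) := by
    rw [form_filter, hR, map_prod]
    have h3 := dlog_prod (univ.filter (fun c : E => h c = 1)) (fun c => φ (Fc i v P Q A B c))
      (fun _ => 1) (fun c hc => hφ0 _ (hF0 c (hne0 c hc)))
    simp only [pow_one, one_smul] at h3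
    rw [h3]
    rfl
  refine ⟨R, hR0, ?_, ?_, hlog⟩
  · rw [hR, natDegree_prod _ _ (fun c hc => hF0 c (hne0 c hc)),
      Finset.sum_congr rfl fun c hc => hdeg c (hne0 c hc), Finset.sum_const, hcard, smul_eq_mul]
  · have hterm : ∀ c ∈ univ.filter (fun c : E => h c = 1), LG (Fc i v P Q A B c) =
        ((φ Q)⁻¹ * (j c * (FF v (φ P) (φ Q) (φ A) (φ B) (j c))⁻¹) + (φ Q)⁻¹ * φ (derivative Q)) •
          dX k := by
      intro c hc
      have g0 := hφ0 _ (hF0 c (hne0 c hc))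
      have gQ := hφ0 _ hQ
      have g1 := congrArg φ (der_Fc i v P Q A B hPQ c)
      rw [map_mul, map_add, map_mul] at g1
      rw [LG, dlog, D_poly, smul_smul, ← hFφ]
      congr 1
      have g2 : φ (C (i c)) = j c := rfl
      rw [g2] at g1
      rw [← hφ]
      field_simp
      linear_combination g1
    rw [form_filter, Finset.sum_congr rfl hterm, ← Finset.sum_smul]
    congr 1
    rw [Finset.sum_add_distrib, Finset.sum_const, hcard, ← Finset.mul_sum]
    have h3 : (2 ^ v : ℕ) • ((φ Q)⁻¹ * φ (derivative Q)) = 0 := by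
      obtain ⟨w, rfl⟩ : ∃ w, v = w + 1 := ⟨v - 1, by omega⟩
      rw [nsmul_eq_mul, Nat.cast_pow, pow_succ]
      have h5 : ((2 : ℕ) : RatFunc k) = 0 := by
        have h6 : φ (2 : k[X]) = 0 := by rw [h2, map_zero]
        rw [map_ofNat] at h6
        exact_mod_cast h6
      rw [h5, mul_zero, zero_mul]
    rw [h3, add_zero]
    have hRφ : φ R = ∏ c ∈ univ.filter (fun c : E => h c = 1),
        FF v (φ P) (φ Q) (φ A) (φ B) (j c) := by
      rw [hR, map_prod]
      exact Finset.prod_congr rfl fun c _ => hFφ c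
    rw [← hRφ] at hcore
    have g3 := hφ0 _ hR0
    have gQ := hφ0 _ hQ
    generalize ∑ c ∈ univ.filter (fun c : E => h c = 1),
      j c * (FF v (φ P) (φ Q) (φ A) (φ B) (j c))⁻¹ = S at hcore ⊢
    field_simp
    linear_combination hcore

end Pool.Agent.W2helper79.L2G
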