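import Mathlib
import Pool.Agent.W2helper79.L2.Necessary

/-!
# The divisibility condition in characteristic two, every dimension
-/

set_option autoImplicit false

namespace Pool.Agent.W2helper79.L2G

open Polynomial Finset
open Pool.Agent.W515.LD (dX dlog D_poly dX_ne_zero)
open Pool.Agent.W2helper79.L2 (exists_P card_roots_eq ne_zero_of_der roots_symm)
open Pool.Agent.Results.MP_f76cdc_ag.DivisibilityFails

/-- double counting -/
lemma double_count {V α : Type*} [AddCommGroup V] [Fintype V] [DecidableEq V] [DecidableEq α]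
    (v M : ℕ) (hV : Fintype.card V = 2 ^ (v + 1)) (hdouble : ∀ a : V, a + a = 0)
    (S : V → Finset α) (h0 : S 0 = ∅) (hM : ∀ a, a ≠ 0 → (S a).card = M)
    (hS : ∀ a b x, x ∈ S (a + b) ↔ (x ∈ S a ∧ x ∉ S b) ∨ (x ∈ S b ∧ x ∉ S a)) :
    2 ^ v ∣ M := by
  classical
  set U := univ.biUnion S with hU
  have hx : ∀ x ∈ U, (univ.filter (fun a : V => x ∈ S a)).card = 2 ^ v := by
    intro x hx
    rw [hU, mem_biUnion] at hx
    obtain ⟨a0, -, ha0⟩ := hx
    have h1 : (univ.filter (fun a : V => x ∈ S a)).card =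
        (univ.filter (fun a : V => ¬ x ∈ S a)).card := by
      apply Finset.card_bij' (fun c _ => c + a0) (fun c _ => c + a0)
      · intro c hc
        simp only [mem_filter, mem_univ, true_and] at hc ⊢
        rw [hS]
        tauto
      · intro c hc
        simp only [mem_filter, mem_univ, true_and] at hc ⊢
        rw [hS]
        tauto
      · intro c _
        rw [add_assoc, hdouble, add_zero]
      · intro c _
        rw [add_assoc, hdouble, add_zero]
    have h2 := Finset.card_filter_add_card_filter_not (s := (univ : Finset V)) (fun a : V => x ∈ S a)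
    rw [← h1, card_univ, hV, pow_succ] at h2
    omega
  have h1 : ∑ a : V, (S a).card = ∑ x ∈ U, (univ.filter (fun a : V => x ∈ S a)).card := by
    have h2 : ∀ a : V, (S a).card = ∑ x ∈ U, if x ∈ S a then 1 else 0 := by
      intro a
      rw [← Finset.card_filter]
      congr 1
      ext x
      rw [mem_filter]
      constructor
      · intro h
        exact ⟨by rw [hU, mem_biUnion]; exact ⟨a, mem_univ _, h⟩, h⟩
      · exact fun h => h.2
    rw [Finset.sum_congr rfl fun a _ => h2 a, Finset.sum_comm]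
    apply Finset.sum_congr rfl
    intro x _
    rw [Finset.card_filter]
  rw [Finset.sum_congr rfl hx, Finset.sum_const, smul_eq_mul] at h1
  have h3 : ∑ a : V, (S a).card = (2 ^ (v + 1) - 1) * M := by
    rw [← Finset.add_sum_erase univ _ (mem_univ (0 : V)), h0, Finset.card_empty, zero_add,
      Finset.sum_congr rfl fun a ha => hM a (Finset.mem_erase.1 ha).1, Finset.sum_const,
      Finset.card_erase_of_mem (mem_univ _), card_univ, hV, smul_eq_mul]
  rw [h3] at h1
  have h4 : 2 ^ v ∣ (2 ^ (v + 1) - 1) * M := ⟨U.card, by rw [h1, mul_comm]⟩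
  refine Nat.Coprime.dvd_of_dvd_mul_left ?_ h4
  apply Nat.Coprime.pow_left
  rw [Nat.coprime_two_left]
  have h5 : 2 ^ (v + 1) = 2 * 2 ^ v := pow_succ' 2 v
  have h6 : 0 < 2 ^ v := by positivity
  rw [h5]
  exact ⟨2 ^ v - 1, by omega⟩

/-- the divisibility condition -/
theorem dvd_all {k : Type*} [Field k] [Algebra (ZMod 2) k] [IsAlgClosed k] (v m : ℕ)
    (V : Submodule (ZMod 2) (Ω[RatFunc k⁄k])) (hV : IsSpaceL 2 k m (v + 1) V) : 2 ^ v ∣ m + 1 := by
  classical
  have hfin : Module.Finite (ZMod 2) V := by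
    apply Module.finite_of_finrank_pos
    rw [hV.dim]
    omega
  have hfin2 : Finite V := Module.finite_of_finite (ZMod 2)
  have : Fintype V := Fintype.ofFinite V
  have hcardV : Fintype.card V = 2 ^ (v + 1) := by
    rw [Module.card_eq_pow_finrank (K := ZMod 2) (V := V), hV.dim, ZMod.card]
  have hne : ∀ a : V, a ≠ 0 → (a : Ω[RatFunc k⁄k]) ≠ 0 := by
    intro a ha h
    exact ha (Subtype.ext h)
  have hdouble : ∀ a : V, a + a = 0 := by
    intro a
    rw [← two_smul (ZMod 2) a]
    have h2 : (2 : ZMod 2) = 0 := by decide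
    rw [h2, zero_smul]
  have hex : ∀ a : V, ∃ P : k[X], a ≠ 0 → (derivative P = 1 ∧
      P.natDegree = m + 1 ∧ (a : Ω[RatFunc k⁄k]) = (algebraMap k[X] (RatFunc k) P)⁻¹ • dX k) := by
    intro a
    by_cases ha : a = 0
    · exact ⟨0, fun h => absurd ha h⟩
    · obtain ⟨P, hP⟩ := exists_P m (a : Ω[RatFunc k⁄k]) (hV.log _ a.2 (hne a ha))
        (hV.zero _ a.2 (hne a ha))
      exact ⟨P, fun _ => hP⟩
  choose P hP using hex
  have hadd : ∀ a b : V, a ≠ 0 → b ≠ 0 → a + b ≠ 0 → ∀ x,
      x ∈ (P (a + b)).roots.toFinset ↔ (x ∈ (P a).roots.toFinset ∧ x ∉ (P b).roots.toFinset) ∨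
        (x ∈ (P b).roots.toFinset ∧ x ∉ (P a).roots.toFinset) := by
    intro a b ha hb hab x
    obtain ⟨d1, -, w1⟩ := hP a ha
    obtain ⟨d2, -, w2⟩ := hP b hb
    obtain ⟨d3, -, w3⟩ := hP (a + b) hab
    have n1 := ne_zero_of_der _ d1
    have n2 := ne_zero_of_der _ d2
    have n3 := ne_zero_of_der _ d3
    rw [Multiset.mem_toFinset, Multiset.mem_toFinset, Multiset.mem_toFinset, mem_roots n1,
      mem_roots n2, mem_roots n3]
    apply roots_symm _ _ _ d1 d2 d3
    have hφ0 : ∀ Q : k[X], Q ≠ 0 → algebraMap k[X] (RatFunc k) Q ≠ 0 := by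
      intro Q hQ
      rw [ne_eq, FaithfulSMul.algebraMap_eq_zero_iff]
      exact hQ
    have m1 := hφ0 _ n1
    have m2 := hφ0 _ n2
    have m3 := hφ0 _ n3
    have hs : ((a + b : V) : Ω[RatFunc k⁄k]) = a + b := rfl
    rw [w1, w2, w3, ← add_smul] at hs
    have hs2 : ((algebraMap k[X] (RatFunc k) (P (a + b)))⁻¹ -
        ((algebraMap k[X] (RatFunc k) (P a))⁻¹ + (algebraMap k[X] (RatFunc k) (P b))⁻¹)) • dX k =
        0 := by
      rw [sub_smul, hs, sub_self]
    rcases smul_eq_zero.1 hs2 with h3 | h3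
    · apply FaithfulSMul.algebraMap_injective k[X] (RatFunc k)
      rw [map_mul, map_mul, map_add]
      have h4 := sub_eq_zero.1 h3
      field_simp at h4
      linear_combination -h4
    · exact absurd h3 dX_ne_zero
  refine double_count v (m + 1) hcardV hdouble
    (fun a => if a = 0 then ∅ else (P a).roots.toFinset) (if_pos rfl) ?_ ?_
  · intro a ha
    simp only [if_neg ha]
    rw [card_roots_eq _ (hP a ha).1, (hP a ha).2.1]
  · intro a b x
    by_cases ha : a = 0
    · subst ha
      simp
    by_cases hb : b = 0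
    · subst hb
      simp
    by_cases hab : a + b = 0
    · have h1 : a = b := by
        have h2 := hdouble b
        rw [← hab] at h2
        exact (add_right_cancel h2).symm
      subst h1
      simp [hab]
    · simp only [if_neg ha, if_neg hb, if_neg hab]
      exact hadd a b ha hb hab x

end Pool.Agent.W2helper79.L2G
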