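import Mathlib
import Pool.Agent.W2helper79.L2.Basis

/-!
# The choice of the polynomials
-/

set_option autoImplicit false

namespace Pool.Agent.W2helper79.L2G

open Polynomial Finset
open Pool.Agent.W2helper79.L2 (two_poly)

variable {k : Type*} [Field k] [Algebra (ZMod 2) k]

lemma der_sq (T : k[X]) : derivative (T ^ 2) = 0 := by
  have h2 := two_poly k
  rw [derivative_pow]
  have h3 : (C ((2 : ℕ) : k) : k[X]) = 0 := by
    rw [map_natCast]
    exact_mod_cast h2
  rw [h3, zero_mul, zero_mul]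

lemma exists_B [IsAlgClosed k] (M r : ℕ) (Q : k[X])
    (hQ : ∀ z : k, z ^ (2 * r + 1) = 1 → Q.eval z ≠ 0) :
    ∃ B : k[X], B.natDegree = 2 * r + 1 ∧ (1 + X ^ (2 * r + 1) : k[X]) ∣ Q * B ^ (M + 1) - 1 := by
  classical
  have hk2 : (2 : k) = 0 := by exact_mod_cast W515.LD.cast_p (p := 2) k
  set P : k[X] := 1 + X ^ (2 * r + 1) with hP
  have hPd : P.natDegree = 2 * r + 1 := by
    rw [hP, natDegree_add_eq_right_of_natDegree_lt, natDegree_X_pow]
    rw [natDegree_X_pow, natDegree_one]
    omega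
  have hP0 : P ≠ 0 := by
    rintro h
    rw [h, natDegree_zero] at hPd
    omega
  have hPder : derivative P = X ^ (2 * r) := by
    rw [hP, derivative_add, derivative_one, zero_add, derivative_X_pow]
    have h3 : ((2 * r + 1 : ℕ) : k) = 1 := by
      push_cast
      rw [hk2, zero_mul, zero_add]
    rw [h3, C_1, one_mul]
    rfl
  have hsep : P.Separable := by
    rw [Polynomial.Separable, hPder]
    refine ⟨1, -X, ?_⟩
    rw [hP]
    ring
  have hnd : P.roots.Nodup := nodup_roots hsep
  have hroot : ∀ z ∈ P.roots.toFinset, z ^ (2 * r + 1) = 1 := by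
    intro z hz
    rw [Multiset.mem_toFinset, mem_roots hP0, IsRoot, hP, eval_add, eval_one, eval_pow,
      eval_X] at hz
    linear_combination hz - hk2
  have hcard : P.roots.toFinset.card = 2 * r + 1 := by
    rw [Multiset.toFinset_card_of_nodup hnd, ← hPd]
    exact (IsAlgClosed.splits P).natDegree_eq_card_roots.symm
  have hex : ∀ z : k, ∃ y : k, y ^ (M + 1) = (Q.eval z)⁻¹ := fun z =>
    IsAlgClosed.exists_pow_nat_eq _ (by omega)
  choose β hβ using hex
  set B0 := Lagrange.interpolate P.roots.toFinset id β with hB0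
  have hinj : Set.InjOn (id : k → k) (P.roots.toFinset : Set k) := Function.injective_id.injOn
  have hB0d : B0.degree < ((2 * r + 1 : ℕ) : WithBot ℕ) := by
    rw [← hcard]
    exact Lagrange.degree_interpolate_lt _ hinj
  have hPdeg : P.degree = ((2 * r + 1 : ℕ) : WithBot ℕ) := by
    rw [degree_eq_natDegree hP0, hPd]
  refine ⟨B0 + P, ?_, ?_⟩
  · apply natDegree_eq_of_degree_eq_some
    rw [degree_add_eq_right_of_degree_lt, hPdeg]
    rw [hPdeg]
    exact hB0d
  · have hspl := IsAlgClosed.splits P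
    have h5 : P = C P.leadingCoeff * (P.roots.map (fun a => X - C a)).prod :=
      hspl.eq_prod_roots
    have h6 : (P.roots.map (fun a => X - C a)).prod = ∏ z ∈ P.roots.toFinset, (X - C z) := by
      rw [Finset.prod_multiset_map_count]
      apply Finset.prod_congr rfl
      intro z hz
      rw [Multiset.count_eq_one_of_mem hnd (Multiset.mem_toFinset.1 hz), pow_one]
    have h7 : (∏ z ∈ P.roots.toFinset, (X - C z)) ∣ Q * (B0 + P) ^ (M + 1) - 1 := by
      apply Finset.prod_dvd_of_coprime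
      · intro a _ b _ hab
        exact isCoprime_X_sub_C_of_isUnit_sub (sub_ne_zero.2 hab).isUnit
      · intro z hz
        rw [dvd_iff_isRoot, IsRoot, eval_sub, eval_mul, eval_pow, eval_add, eval_one]
        have h8 : eval z P = 0 := by
          rw [Multiset.mem_toFinset, mem_roots hP0] at hz
          exact hz
        have h9 : eval z B0 = β z := by
          have := Lagrange.eval_interpolate_at_node (s := P.roots.toFinset) (v := id) β hinj hz
          exact this
        rw [h8, add_zero, h9, hβ, mul_inv_cancel₀ (hQ z (hroot z hz)), sub_self]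
    rw [← h6] at h7
    obtain ⟨W, hW⟩ := h7
    have hlc : P.leadingCoeff ≠ 0 := by
      rw [ne_eq, leadingCoeff_eq_zero]
      exact hP0
    have h11 : (C P.leadingCoeff : k[X]) * C (P.leadingCoeff)⁻¹ = 1 := by
      rw [← C_mul, mul_inv_cancel₀ hlc, C_1]
    refine ⟨C (P.leadingCoeff)⁻¹ * W, ?_⟩
    rw [hW]
    linear_combination (-(C (P.leadingCoeff)⁻¹ * W)) * h5 -
      (P.roots.map (fun a => X - C a)).prod * W * h11

/-- The polynomials `P, Q, A, B`. -/
theorem params [IsAlgClosed k] (M r t : ℕ) (ht : 1 ≤ t) :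
    ∃ P Q A B : k[X], derivative (P * Q) = 1 ∧ A * P + Q * B ^ (M + 1) = 1 ∧ B ≠ 0 ∧
      B.natDegree < A.natDegree ∧ P.natDegree < Q.natDegree + M * A.natDegree ∧
      Q.natDegree + M * A.natDegree =
        (2 * r + 1) + 2 * (M + 1) * t + (M + 1) * M * (2 * r + 1) := by
  have h2 := two_poly k
  have hk2 : (2 : k) = 0 := by exact_mod_cast W515.LD.cast_p (p := 2) k
  set P : k[X] := 1 + X ^ (2 * r + 1) with hP
  have hPd : P.natDegree = 2 * r + 1 := by
    rw [hP, natDegree_add_eq_right_of_natDegree_lt, natDegree_X_pow]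
    rw [natDegree_X_pow, natDegree_one]
    omega
  have hP0 : P ≠ 0 := by
    rintro h
    rw [h, natDegree_zero] at hPd
    omega
  set Q : k[X] := (X ^ t) ^ 2 * P + X with hQ
  have hQd : Q.natDegree = 2 * t + (2 * r + 1) := by
    have h1 : ((X ^ t) ^ 2 * P : k[X]).natDegree = 2 * t + (2 * r + 1) := by
      rw [natDegree_mul (pow_ne_zero _ (pow_ne_zero _ X_ne_zero)) hP0, hPd, natDegree_pow,
        natDegree_X_pow]
    rw [hQ, natDegree_add_eq_left_of_natDegree_lt, h1]
    rw [h1, natDegree_X]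
    omega
  have hQ0 : Q ≠ 0 := by
    rintro h
    rw [h, natDegree_zero] at hQd
    omega
  have hPQ : derivative (P * Q) = 1 := by
    have h3 : P * Q = (X ^ t * P) ^ 2 + (X ^ (r + 1)) ^ 2 + X := by
      rw [hQ, mul_add, hP]
      ring
    rw [h3, derivative_add, derivative_add, der_sq, der_sq, derivative_X]
    ring
  obtain ⟨B, hBd, hdvd⟩ := exists_B M r Q (by
    intro z hz
    have h3 : z ≠ 0 := by
      rintro rfl
      rw [zero_pow (by omega)] at hz
      exact zero_ne_one hz
    have h4 : eval z P = 0 := by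
      rw [hP, eval_add, eval_one, eval_pow, eval_X, hz]
      linear_combination hk2
    rw [hQ, eval_add, eval_mul, h4, mul_zero, zero_add, eval_X]
    exact h3)
  obtain ⟨A, hA⟩ := hdvd
  rw [← hP] at hA
  have hB0 : B ≠ 0 := by
    rintro h
    rw [h, natDegree_zero] at hBd
    omega
  have hAB : -A * P + Q * B ^ (M + 1) = 1 := by linear_combination hA
  have hQB : (Q * B ^ (M + 1)).natDegree = 2 * t + (2 * r + 1) + (M + 1) * (2 * r + 1) := by
    rw [natDegree_mul hQ0 (pow_ne_zero _ hB0), natDegree_pow, hQd, hBd]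
  have hPA : (P * A).natDegree = 2 * t + (2 * r + 1) + (M + 1) * (2 * r + 1) := by
    rw [← hA, natDegree_sub_eq_left_of_natDegree_lt, hQB]
    rw [hQB, natDegree_one]
    omega
  have hA0 : A ≠ 0 := by
    rintro h
    rw [h, mul_zero, natDegree_zero] at hPA
    omega
  rw [natDegree_mul hP0 hA0, hPd] at hPA
  have hAd : A.natDegree = 2 * t + (M + 1) * (2 * r + 1) := by omega
  have h5 : 2 * r + 1 ≤ (M + 1) * (2 * r + 1) := Nat.le_mul_of_pos_left _ (by omega)
  refine ⟨P, Q, -A, B, hPQ, hAB, hB0, ?_, ?_, ?_⟩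
  · rw [natDegree_neg, hBd, hAd]
    omega
  · rw [natDegree_neg, hPd, hQd]
    omega
  · rw [natDegree_neg, hQd, hAd]
    ring

/-- the arithmetic of the degrees -/
lemma exists_rt (M' l : ℕ) (hl : Odd l) (hl2 : 2 * (2 * M' + 2) ^ 3 ≤ l) :
    ∃ r t : ℕ, 1 ≤ t ∧
      (2 * r + 1) + 2 * (2 * M' + 1) * t + (2 * M' + 1) * (2 * M') * (2 * r + 1) = l := by
  obtain ⟨w, rfl⟩ := hl
  set D := 2 * M' + 1 with hD
  -- `w = D T + r`
  have hdiv := Nat.div_add_mod w D
  have hmod := Nat.mod_lt w (show D > 0 by omega)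
  set T := w / D with hT
  set r := w % D with hr
  have h1 : M' * (2 * r + 1) + 1 ≤ T := by
    by_contra hcon
    have h2 : T ≤ M' * (2 * r + 1) := by omega
    have h3 : D * T ≤ D * (M' * (2 * r + 1)) := Nat.mul_le_mul_left _ h2
    have h4 : M' * (2 * r + 1) ≤ M' * (2 * D) := Nat.mul_le_mul_left _ (by omega)
    have h5 : D * (M' * (2 * r + 1)) ≤ D * (M' * (2 * D)) := Nat.mul_le_mul_left _ h4
    have h6 : w < D * (M' * (2 * D)) + D := by omega
    have h7 : D * (M' * (2 * D)) + D + 1 ≤ (2 * M' + 2) ^ 3 := by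
      rw [hD]
      nlinarith [Nat.zero_le M', Nat.zero_le (M' ^ 2), Nat.zero_le (M' ^ 3)]
    omega
  obtain ⟨t, ht⟩ : ∃ t, T = M' * (2 * r + 1) + t := ⟨T - M' * (2 * r + 1), by omega⟩
  refine ⟨r, t, by omega, ?_⟩
  have h8 : w = D * (M' * (2 * r + 1) + t) + r := by rw [← ht]; exact hdiv.symm
  have h9 : 2 * w + 1 = 2 * (D * (M' * (2 * r + 1) + t) + r) + 1 := by omega
  rw [h9]
  ring

end Pool.Agent.W2helper79.L2G
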